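import Pool.Agent.Y766.WY
import Pool.Agent.Y766.R3.Stm
import Pool.Agent.H807R2.Dav1

set_option autoImplicit false

/-!
# Weyl's inequality in degree five
-/

namespace Pool.Agent.Y46.R3

open Finset Polynomial
open Pool.Agent.H807R2.Dav

/-- sums over products of `j` numbers less than `K` -/
noncomputable def TT (K : ℕ) : ℕ → (ℕ → ℝ) → ℝ
  | 0, g => g 1
  | j + 1, g => ∑ h ∈ range K, TT K j (fun u => g (h * u))

/-- the constants -/
noncomputable def cc (K : ℕ) : ℕ → ℝ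
  | 0 => 1
  | d + 1 => 2 ^ (2 ^ d) * (K : ℝ) ^ (2 ^ d - 1) * cc K d

lemma cc_nonneg (K d : ℕ) : 0 ≤ cc K d := by
  induction d with
  | zero => exact zero_le_one
  | succ d ih => unfold cc; positivity

lemma TT_nonneg (K j : ℕ) : ∀ g : ℕ → ℝ, (∀ u, 0 ≤ g u) → 0 ≤ TT K j g := by
  induction j with
  | zero => intro g hg; exact hg 1
  | succ j ih =>
    intro g hg
    unfold TT
    exact sum_nonneg fun h _ => ih _ fun u => hg _

lemma GG_le (K d : ℕ) : ∀ (N : ℕ) (β : ℝ), N ≤ K → Pool.Agent.Y766.GG d N β ≤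
    cc K d * TT K d (fun u => KK K ((u : ℝ) * (d + 1).factorial * β)) := by
  induction d with
  | zero =>
    intro N β hN
    have h1 := geo_bound 0 N (Nat.zero_le N) (M := (K : ℝ)) (by
      rw [Nat.cast_zero, sub_zero]; exact_mod_cast hN) β
    have h2 : ((1 : ℕ) : ℝ) * ((0 + 1).factorial : ℕ) * β = β := by simp
    unfold Pool.Agent.Y766.GG cc TT
    beta_reduce
    rw [one_mul, h2]
    refine le_trans (le_of_eq ?_) h1
    congr 1
    rw [Nat.Ico_zero_eq_range]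
    refine sum_congr rfl fun n _ => ?_
    rw [mul_comm]
    rfl
  | succ d ih =>
    intro N β hN
    have e1 : Pool.Agent.Y766.GG (d + 1) N β = 2 ^ (2 ^ d) * (N : ℝ) ^ (2 ^ d - 1) *
        ∑ h ∈ range N, Pool.Agent.Y766.GG d (N - h) ((d + 2) * h * β) := rfl
    have e2 : cc K (d + 1) = 2 ^ (2 ^ d) * (K : ℝ) ^ (2 ^ d - 1) * cc K d := rfl
    have e3 : TT K (d + 1) (fun u => KK K ((u : ℝ) * (d + 1 + 1).factorial * β)) =
        ∑ h ∈ range K, TT K d (fun u => KK K (((h * u : ℕ) : ℝ) * (d + 1 + 1).factorial * β)) :=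
      rfl
    rw [e1, e2, e3]
    have hNK : (N : ℝ) ≤ K := by exact_mod_cast hN
    have h0 : ∀ h, 0 ≤ TT K d (fun u => KK K (((h * u : ℕ) : ℝ) * (d + 1 + 1).factorial * β)) :=
      fun h => TT_nonneg K d _ fun u => KK_nonneg (Nat.cast_nonneg K) _
    have hpw : (2 : ℝ) ^ (2 ^ d) * (N : ℝ) ^ (2 ^ d - 1) ≤ 2 ^ (2 ^ d) * (K : ℝ) ^ (2 ^ d - 1) :=
      mul_le_mul_of_nonneg_left (pow_le_pow_left₀ (Nat.cast_nonneg N) hNK _) (by positivity)
    rw [mul_assoc (2 ^ (2 ^ d) * (K : ℝ) ^ (2 ^ d - 1))]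
    refine mul_le_mul hpw ?_ (sum_nonneg fun h _ => Pool.Agent.Y766.GG_nonneg _ _ _)
      (by positivity)
    rw [mul_sum]
    calc ∑ h ∈ range N, Pool.Agent.Y766.GG d (N - h) ((d + 2) * h * β)
        ≤ ∑ h ∈ range N, cc K d *
          TT K d (fun u => KK K (((h * u : ℕ) : ℝ) * (d + 1 + 1).factorial * β)) := by
          refine sum_le_sum fun h hh => ?_
          have h1 := ih (N - h) ((d + 2) * h * β) (by omega)
          refine h1.trans (le_of_eq ?_)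
          congr 2
          funext u
          congr 1
          rw [Nat.factorial_succ (d + 1)]
          push_cast
          ring
      _ ≤ ∑ h ∈ range K, cc K d *
          TT K d (fun u => KK K (((h * u : ℕ) : ℝ) * (d + 1 + 1).factorial * β)) := by
          refine sum_le_sum_of_subset_of_nonneg (fun h hh => ?_) fun h _ _ =>
            mul_nonneg (cc_nonneg K d) (h0 h)
          rw [mem_range] at hh ⊢
          omega

/-- double counting -/
lemma count_le (K L : ℕ) (D : ℝ) (hD : ∀ n : ℕ, 1 ≤ n → n ≤ K * L → (n.divisors.card : ℝ) ≤ D)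
    (g : ℕ → ℝ) (hg : ∀ u, 0 ≤ g u) :
    ∑ h ∈ Ico 1 K, ∑ v ∈ Icc 1 L, g (h * v) ≤ D * ∑ w ∈ Icc 1 (K * L), g w := by
  classical
  rw [← sum_product' (s := Ico 1 K) (t := Icc 1 L) (f := fun h v => g (h * v))]
  have hm : ∀ p ∈ Ico 1 K ×ˢ Icc 1 L, p.1 * p.2 ∈ Icc 1 (K * L) := by
    intro p hp
    rw [mem_product, mem_Ico, mem_Icc] at hp
    rw [mem_Icc]
    exact ⟨Nat.mul_pos hp.1.1 hp.2.1, Nat.mul_le_mul hp.1.2.le hp.2.2⟩
  rw [← sum_fiberwise_of_maps_to hm, mul_sum]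
  refine sum_le_sum fun w hw => ?_
  have h1 : ∀ p ∈ (Ico 1 K ×ˢ Icc 1 L).filter (fun p => p.1 * p.2 = w), g (p.1 * p.2) = g w := by
    intro p hp
    rw [(mem_filter.1 hp).2]
  rw [sum_congr rfl h1, sum_const, nsmul_eq_mul]
  have h2 : (((Ico 1 K ×ˢ Icc 1 L).filter (fun p => p.1 * p.2 = w)).card : ℝ) ≤ D := by
    rw [mem_Icc] at hw
    refine le_trans ?_ (hD w hw.1 hw.2)
    exact_mod_cast card_le_card_of_injOn (fun p : ℕ × ℕ => p.1) (by
      intro p hp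
      have hp' := mem_filter.1 (mem_coe.1 hp)
      simp only [mem_coe, Nat.mem_divisors]
      exact ⟨⟨p.2, hp'.2.symm⟩, by omega⟩) (by
      intro p hp p' hp' h
      have a1 := mem_filter.1 (mem_coe.1 hp)
      have a2 := mem_filter.1 (mem_coe.1 hp')
      have b1 := mem_product.1 a1.1
      have b2 := mem_Ico.1 b1.1
      simp only at h
      have h3 : p.1 * p.2 = p.1 * p'.2 := by rw [a1.2, h, a2.2]
      exact Prod.ext h (Nat.eq_of_mul_eq_mul_left b2.1 h3))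
  exact mul_le_mul_of_nonneg_right h2 (hg w)

lemma TT_le (K : ℕ) (hK : 1 ≤ K) (D : ℝ) (hD1 : 1 ≤ D) (J : ℕ)
    (hD : ∀ n : ℕ, 1 ≤ n → n ≤ K ^ J → (n.divisors.card : ℝ) ≤ D) : ∀ j ≤ J,
    ∀ g : ℕ → ℝ, (∀ u, 0 ≤ g u) → TT K j g ≤
      j * D ^ j * ((K : ℝ) ^ j / K) * g 0 + D ^ j * ∑ v ∈ Icc 1 (K ^ j), g v := by
  have hK0 : (0 : ℝ) < K := by exact_mod_cast hK
  have hD0 : 0 < D := by linarith
  intro j
  induction j with
  | zero =>
    intro _ g hg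
    unfold TT
    simp
  | succ j ih =>
    intro hj g hg
    have e1 : TT K (j + 1) g = ∑ h ∈ range K, TT K j (fun u => g (h * u)) := rfl
    rw [e1]
    have h1 : ∀ h ∈ range K, TT K j (fun u => g (h * u)) ≤
        j * D ^ j * ((K : ℝ) ^ j / K) * g 0 + D ^ j * ∑ v ∈ Icc 1 (K ^ j), g (h * v) := by
      intro h _
      have := ih (by omega) (fun u => g (h * u)) (fun u => hg _)
      simpa using this
    refine (sum_le_sum h1).trans ?_
    rw [sum_add_distrib, sum_const, card_range, nsmul_eq_mul, ← mul_sum]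
    have h2 : ∑ h ∈ range K, ∑ v ∈ Icc 1 (K ^ j), g (h * v) =
        (K : ℝ) ^ j * g 0 + ∑ h ∈ Ico 1 K, ∑ v ∈ Icc 1 (K ^ j), g (h * v) := by
      rw [range_eq_Ico, sum_eq_sum_Ico_succ_bot (by omega : 0 < K)]
      congr 1
      have : ∀ v ∈ Icc 1 (K ^ j), g (0 * v) = g 0 := fun v _ => by rw [zero_mul]
      rw [sum_congr rfl this, sum_const, Nat.card_Icc, nsmul_eq_mul]
      simp
    have h3 := count_le K (K ^ j) D (fun n hn hn' => hD n hn (hn'.trans (by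
      rw [← pow_succ']
      exact Nat.pow_le_pow_right hK hj))) g hg
    rw [← pow_succ'] at h3
    rw [h2]
    have hg0 := hg 0
    have hpow : (0 : ℝ) < (K : ℝ) ^ j := by positivity
    have hDj : (0 : ℝ) < D ^ j := by positivity
    have e2 : (K : ℝ) ^ (j + 1) / K = (K : ℝ) ^ j := by
      rw [pow_succ, mul_div_assoc, div_self hK0.ne', mul_one]
    have e3 : (K : ℝ) * (j * D ^ j * ((K : ℝ) ^ j / K) * g 0) = j * D ^ j * (K : ℝ) ^ j * g 0 := by
      field_simp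
    rw [e2, e3]
    have h4 : D ^ j * ∑ h ∈ Ico 1 K, ∑ v ∈ Icc 1 (K ^ j), g (h * v) ≤
        D ^ (j + 1) * ∑ w ∈ Icc 1 (K ^ (j + 1)), g w := by
      refine (mul_le_mul_of_nonneg_left h3 hDj.le).trans (le_of_eq ?_)
      ring
    have h5 : (j * D ^ j * (K : ℝ) ^ j * g 0) + D ^ j * ((K : ℝ) ^ j * g 0) ≤
        ((j + 1 : ℕ) : ℝ) * D ^ (j + 1) * (K : ℝ) ^ j * g 0 := by
      have h6 : D ^ j ≤ D ^ (j + 1) := by
        rw [pow_succ]
        nlinarith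
      have h7 : 0 ≤ (K : ℝ) ^ j * g 0 := by positivity
      have h8 : (0 : ℝ) ≤ j + 1 := by positivity
      push_cast
      nlinarith [mul_le_mul_of_nonneg_right h6 (mul_nonneg h8 h7)]
    rw [mul_add]
    linarith

lemma real1 {K D4 g0 S L E c : ℝ} (hK0 : 0 < K) (hD4 : 0 ≤ D4) (hc : 0 < c) (hg0 : g0 ≤ 3 * K)
    (h3 : S ≤ 122 * K ^ 4 * (42 + 3 * L)) (hL : L ≤ 4 * (c * E)) (hE : 1 ≤ E) :
    ((4 : ℕ) : ℝ) * D4 * (K ^ 4 / K) * g0 + D4 * S ≤
      D4 * ((12 + 122 * (42 + 12 * c)) * (K ^ 4 * E)) := by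
  have b2 : 0 < K ^ 4 := by positivity
  have b1 : ((4 : ℕ) : ℝ) * D4 * (K ^ 4 / K) * g0 ≤ D4 * (12 * K ^ 4) := by
    calc ((4 : ℕ) : ℝ) * D4 * (K ^ 4 / K) * g0
        ≤ ((4 : ℕ) : ℝ) * D4 * (K ^ 4 / K) * (3 * K) := by
          apply mul_le_mul_of_nonneg_left hg0
          positivity
      _ = D4 * (12 * K ^ 4) := by
          push_cast
          field_simp
          ring
  have c2 : 42 + 3 * L ≤ (42 + 12 * c) * E := by nlinarith
  have c3 : 12 * K ^ 4 ≤ 12 * (K ^ 4 * E) := by nlinarith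
  have c4 := mul_le_mul_of_nonneg_left c2 (show 0 ≤ 122 * K ^ 4 by positivity)
  have b3 : 12 * K ^ 4 + S ≤ (12 + 122 * (42 + 12 * c)) * (K ^ 4 * E) := by
    calc 12 * K ^ 4 + S ≤ 12 * (K ^ 4 * E) + 122 * K ^ 4 * ((42 + 12 * c) * E) :=
          add_le_add c3 (h3.trans c4)
      _ = _ := by ring
  calc _ ≤ D4 * (12 * K ^ 4) + D4 * S := by linarith
    _ = D4 * (12 * K ^ 4 + S) := by ring
    _ ≤ _ := mul_le_mul_of_nonneg_left b3 hD4

theorem wey : Pool.Agent.Y766.R3.S_WEY := by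
  intro ε hε
  obtain ⟨C₀, hC₀, hdiv⟩ := Pool.Agent.H505R2.div_bound (δ := ε / 8) (by positivity)
  obtain ⟨B, hB⟩ : ∃ B : ℝ, B = 2 ^ 15 * C₀ ^ 4 * (12 + 122 * (42 + 12 * (8 / ε))) := ⟨_, rfl⟩
  have hB1 : 0 < B := by rw [hB]; positivity
  refine ⟨B ^ (1 / 16 : ℝ), by positivity, ?_⟩
  intro K q a hK hKq hqK hcop P hP hP5 J hJ
  have hK0 : (0 : ℝ) < K := by exact_mod_cast hK
  have hK1 : (1 : ℝ) ≤ K := by exact_mod_cast hK
  have hq : 1 ≤ q := hK.trans hKq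
  have hq0 : (0 : ℝ) < q := by exact_mod_cast hq
  obtain ⟨α, hα⟩ : ∃ α : ℝ, α = (a : ℝ) / q := ⟨_, rfl⟩
  -- Weyl differencing
  have h1 : ‖∑ k ∈ range J, Pool.Agent.Y766.R3.eu (P.eval (k : ℝ))‖ ^ 16 ≤
      2 ^ 15 * (K : ℝ) ^ 11 *
        TT K 4 (fun u => KK K ((u : ℝ) * (4 + 1).factorial * α)) := by
    have h2 := Pool.Agent.Y766.weyl_iter 4 P hP J
    have h3 := GG_le K 4 J (P.coeff (4 + 1)) hJ
    have h4 : cc K 4 = 2 ^ 15 * (K : ℝ) ^ 11 := by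
      unfold cc cc cc cc cc
      norm_num
      ring
    have h5 := h2.trans h3
    rw [h4] at h5
    have h6 : P.coeff (4 + 1) = α := hP5.trans hα.symm
    rw [h6] at h5
    exact h5
  -- the divisor bound
  obtain ⟨D, hD⟩ : ∃ D : ℝ, D = C₀ * (K : ℝ) ^ (ε / 2) := ⟨_, rfl⟩
  have hD1 : 1 ≤ D := by
    rw [hD]
    have : (1 : ℝ) ≤ (K : ℝ) ^ (ε / 2) := Real.one_le_rpow hK1 (by positivity)
    nlinarith
  have hDn : ∀ n : ℕ, 1 ≤ n → n ≤ K ^ 4 → (n.divisors.card : ℝ) ≤ D := by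
    intro n hn hn'
    refine (hdiv n (by omega)).trans ?_
    rw [hD]
    apply mul_le_mul_of_nonneg_left _ (by linarith)
    have h2 : (n : ℝ) ≤ (K : ℝ) ^ (4 : ℝ) := by
      have : ((n : ℕ) : ℝ) ≤ ((K ^ 4 : ℕ) : ℝ) := by exact_mod_cast hn'
      rw [show (4 : ℝ) = ((4 : ℕ) : ℝ) by norm_num, Real.rpow_natCast]
      push_cast at this
      exact this
    calc (n : ℝ) ^ (ε / 8) ≤ ((K : ℝ) ^ (4 : ℝ)) ^ (ε / 8) :=
          Real.rpow_le_rpow (Nat.cast_nonneg n) h2 (by positivity)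
      _ = (K : ℝ) ^ (ε / 2) := by
          rw [← Real.rpow_mul hK0.le]
          congr 1
          ring
  have h2 := TT_le K hK D hD1 4 hDn 4 le_rfl
    (fun u => KK K ((u : ℝ) * (4 + 1).factorial * α)) (fun u => KK_nonneg hK0.le _)
  -- Vinogradov's lemma
  have h3 : ∑ v ∈ Icc 1 (K ^ 4), KK K ((v : ℝ) * (4 + 1).factorial * α) ≤
      122 * (K : ℝ) ^ 4 * (42 + 3 * Real.log q) := by
    have h4 := vino hq (a := a) (Int.isCoprime_iff_gcd_eq_one.2 hcop) (α := α) (by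
      rw [hα, sub_self, abs_zero]; positivity) (M := (K : ℝ)) hK0.le 0 (120 * K ^ 4 + 1)
    have h5 : ∑ v ∈ Icc 1 (K ^ 4), KK K ((v : ℝ) * (4 + 1).factorial * α) ≤
        ∑ j ∈ range (120 * K ^ 4 + 1), KK K (0 + j * α) := by
      have e : ∑ v ∈ Icc 1 (K ^ 4), KK K ((v : ℝ) * (4 + 1).factorial * α) =
          ∑ j ∈ (Icc 1 (K ^ 4)).image (fun v : ℕ => 120 * v), KK K (0 + j * α) := by
        rw [sum_image (by intro x _ y _ h; simp only at h; omega)]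
        refine sum_congr rfl fun v _ => ?_
        congr 1
        have : ((4 + 1).factorial : ℕ) = 120 := by decide
        rw [this]
        push_cast
        ring
      rw [e]
      refine sum_le_sum_of_subset_of_nonneg (fun j hj => ?_) fun j _ _ => KK_nonneg hK0.le _
      obtain ⟨v, hv, rfl⟩ := mem_image.1 hj
      rw [mem_Icc] at hv
      rw [mem_range]
      omega
    refine h5.trans (h4.trans ?_)
    have hlog : 0 ≤ Real.log q := Real.log_nonneg (by exact_mod_cast hq)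
    have h6 : (((120 * K ^ 4 + 1 : ℕ) : ℝ) / q + 1) ≤ 122 * (K : ℝ) ^ 4 / q := by
      rw [div_add_one hq0.ne', div_le_div_iff_of_pos_right hq0]
      have a1 : (q : ℝ) ≤ (K : ℝ) ^ 4 := by exact_mod_cast hqK
      have a2 : (1 : ℝ) ≤ (K : ℝ) ^ 4 := one_le_pow₀ hK1
      push_cast
      linarith
    have h7 : 39 * (K : ℝ) + 3 * q * (1 + Real.log q) ≤ q * (42 + 3 * Real.log q) := by
      have a1 : (K : ℝ) ≤ q := by exact_mod_cast hKq
      nlinarith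
    calc (((120 * K ^ 4 + 1 : ℕ) : ℝ) / q + 1) * (39 * (K : ℝ) + 3 * q * (1 + Real.log q))
        ≤ (122 * (K : ℝ) ^ 4 / q) * (q * (42 + 3 * Real.log q)) := by
          apply mul_le_mul h6 h7 _ (by positivity)
          positivity
      _ = 122 * (K : ℝ) ^ 4 * (42 + 3 * Real.log q) := by
          field_simp
  have hlogq : Real.log q ≤ 4 * ((8 / ε) * (K : ℝ) ^ (ε / 8)) := by
    have a1 : Real.log q ≤ Real.log ((K : ℝ) ^ 4) :=
      Real.log_le_log hq0 (by exact_mod_cast hqK)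
    rw [Real.log_pow] at a1
    have a2 := Real.log_le_rpow_div hK0.le (show (0 : ℝ) < ε / 8 by positivity)
    have a3 : (K : ℝ) ^ (ε / 8) / (ε / 8) = (8 / ε) * (K : ℝ) ^ (ε / 8) := by
      field_simp
    rw [a3] at a2
    push_cast at a1
    linarith
  have hKe : (1 : ℝ) ≤ (K : ℝ) ^ (ε / 8) := Real.one_le_rpow hK1 (by positivity)
  have hg0 : KK K (((0 : ℕ) : ℝ) * (4 + 1).factorial * α) ≤ 3 * K := KK_le hK0.le _
  have hD4 : 0 ≤ D ^ 4 := by positivity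
  have h8 : TT K 4 (fun u => KK K ((u : ℝ) * (4 + 1).factorial * α)) ≤
      D ^ 4 * ((12 + 122 * (42 + 12 * (8 / ε))) * ((K : ℝ) ^ 4 * (K : ℝ) ^ (ε / 8))) :=
    h2.trans (real1 hK0 hD4 (by positivity) hg0 h3 hlogq hKe)
  have hK11 : (0 : ℝ) ≤ 2 ^ 15 * (K : ℝ) ^ 11 := by positivity
  have h9 := h1.trans (mul_le_mul_of_nonneg_left h8 hK11)
  have h10 : 2 ^ 15 * (K : ℝ) ^ 11 *
      (D ^ 4 * ((12 + 122 * (42 + 12 * (8 / ε))) * ((K : ℝ) ^ 4 * (K : ℝ) ^ (ε / 8)))) ≤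
      B * (K : ℝ) ^ (15 + 16 * ε) := by
    have d1 : D ^ 4 = C₀ ^ 4 * (K : ℝ) ^ (2 * ε) := by
      rw [hD, mul_pow, ← Real.rpow_natCast ((K : ℝ) ^ (ε / 2)) 4, ← Real.rpow_mul hK0.le]
      congr 2
      push_cast
      ring
    have d2 : (K : ℝ) ^ 11 * (K : ℝ) ^ 4 = (K : ℝ) ^ (15 : ℝ) := by
      rw [← pow_add, show (15 : ℝ) = ((15 : ℕ) : ℝ) by norm_num, Real.rpow_natCast]
    have d3 : (K : ℝ) ^ (15 : ℝ) * (K : ℝ) ^ (2 * ε) * (K : ℝ) ^ (ε / 8) ≤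
        (K : ℝ) ^ (15 + 16 * ε) := by
      rw [← Real.rpow_add hK0, ← Real.rpow_add hK0]
      apply Real.rpow_le_rpow_of_exponent_le hK1
      linarith
    calc 2 ^ 15 * (K : ℝ) ^ 11 *
        (D ^ 4 * ((12 + 122 * (42 + 12 * (8 / ε))) * ((K : ℝ) ^ 4 * (K : ℝ) ^ (ε / 8))))
        = B * (((K : ℝ) ^ 11 * (K : ℝ) ^ 4) * (K : ℝ) ^ (2 * ε) * (K : ℝ) ^ (ε / 8)) := by
          rw [d1, hB]; ring
      _ ≤ B * (K : ℝ) ^ (15 + 16 * ε) := by
          rw [d2]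
          exact mul_le_mul_of_nonneg_left d3 hB1.le
  have h11 := h9.trans h10
  have h12 : ‖∑ k ∈ range J, Pool.Agent.Y766.R3.eu (P.eval (k : ℝ))‖ =
      (‖∑ k ∈ range J, Pool.Agent.Y766.R3.eu (P.eval (k : ℝ))‖ ^ 16) ^ (1 / 16 : ℝ) := by
    rw [← Real.rpow_natCast _ 16, ← Real.rpow_mul (norm_nonneg _)]
    norm_num
  rw [h12]
  refine (Real.rpow_le_rpow (by positivity) h11 (by norm_num)).trans (le_of_eq ?_)
  rw [Real.mul_rpow hB1.le (by positivity), ← Real.rpow_mul hK0.le]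
  congr 2
  ring

end Pool.Agent.Y46.R3
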